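import Pool.Agent.Helper6.MONO.Stmts

/-!
The Cartan invariant of a triangle configuration.
-/

set_option autoImplicit false
noncomputable section
namespace Pool.Agent.Helper6.MONO

/-! ### linearity of the form -/

private theorem car_lin (a b c : ℂ) (x y z w : V3) :
    hf (a • x + b • y + c • z) w = a * hf x w + b * hf y w + c * hf z w := by
  simp only [hf, Pi.add_apply, Pi.smul_apply, smul_eq_mul]
  ring

private theorem car_lin' (a b c : ℂ) (x y z w : V3) :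
    hf w (a • x + b • y + c • z) = star a * hf w x + star b * hf w y + star c * hf w z := by
  simp only [hf, Pi.add_apply, Pi.smul_apply, smul_eq_mul, star_add, star_mul']
  ring

private theorem car_sub (x y w : V3) (c : ℂ) : hf (x - c • y) w = hf x w - c * hf y w := by
  simp only [hf, Pi.sub_apply, Pi.smul_apply, smul_eq_mul]
  ring

private theorem car_smul (x w : V3) (c : ℂ) : hf w (c • x) = star c * hf w x := by
  simp only [hf, Pi.smul_apply, smul_eq_mul, star_mul']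
  ring

private theorem car_star (x y : V3) : star (hf x y) = hf y x := by
  simp only [hf, star_sub, star_add, star_mul', star_star]
  ring

/-! ### the determinant -/

/-- the determinant of the Gram matrix of three unit vectors -/
private def cdl (x y z : V3) : ℂ :=
  1 - hf y z * hf z y - hf x y * hf y x - hf x z * hf z x + hf x z * hf z y * hf y x +
    hf x y * hf y z * hf z x

private theorem cdl_cyc (x y z : V3) : cdl y z x = cdl x y z := by
  unfold cdl
  ring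

private theorem car_det (e : Fin 3 → V3) (hu : ∀ i, hf (e i) (e i) = 1) :
    cdl (e 0) (e 1) (e 2) = -((Matrix.of e).det * star (Matrix.of e).det) := by
  have h1 : (Matrix.of fun i j : Fin 3 => hf (e i) (e j)) =
      Matrix.of e * Matrix.diagonal ![(1 : ℂ), 1, -1] * (Matrix.of e).conjTranspose := by
    ext i j
    rw [Matrix.mul_apply]
    simp only [Matrix.mul_diagonal, Fin.sum_univ_three, Matrix.conjTranspose_apply,
      Matrix.of_apply, Matrix.cons_val_zero, Matrix.cons_val_one, Matrix.cons_val, hf]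
    ring
  have h2 := congrArg Matrix.det h1
  rw [Matrix.det_mul, Matrix.det_mul, Matrix.det_diagonal, Matrix.det_conjTranspose,
    Fin.prod_univ_three, Matrix.det_fin_three] at h2
  simp only [Matrix.of_apply, Matrix.cons_val_zero, Matrix.cons_val_one, Matrix.cons_val, hu] at h2
  have h3 : cdl (e 0) (e 1) (e 2) = (Matrix.of e).det * (1 * 1 * -1) * star (Matrix.of e).det := by
    rw [← h2]
    unfold cdl
    ring
  rw [h3]
  ring

private theorem car_nondeg (e : Fin 3 → V3) (hE : (Matrix.of e).det ≠ 0) {x : V3}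
    (h : ∀ i, hf x (e i) = 0) : x = 0 := by
  have h1 : (Matrix.of e).mulVec ![star (x 0), star (x 1), -star (x 2)] = 0 := by
    funext i
    have h2 : star (hf x (e i)) = 0 := by rw [h i, star_zero]
    rw [car_star] at h2
    simp only [Matrix.mulVec, dotProduct, Fin.sum_univ_three, Matrix.of_apply,
      Matrix.cons_val_zero, Matrix.cons_val_one, Matrix.cons_val, Pi.zero_apply]
    rw [← h2]
    simp only [hf]
    ring
  have h2 := Matrix.eq_zero_of_mulVec_eq_zero hE h1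
  have h3 : star (x 0) = 0 := congrFun h2 0
  have h4 : star (x 1) = 0 := congrFun h2 1
  have h5 : -star (x 2) = 0 := congrFun h2 2
  funext i
  fin_cases i
  · exact star_eq_zero.1 h3
  · exact star_eq_zero.1 h4
  · exact star_eq_zero.1 (neg_eq_zero.1 h5)

/-- the vector orthogonal to `y` and `z` -/
private def cw (x y z : V3) : V3 :=
  (1 - hf y z * hf z y) • x + (hf x z * hf z y - hf x y) • y + (hf x y * hf y z - hf x z) • z

private theorem cw_dot (x y z : V3) (hx : hf x x = 1) (hy : hf y y = 1) (hz : hf z z = 1) :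
    hf (cw x y z) x = cdl x y z ∧ hf (cw x y z) y = 0 ∧ hf (cw x y z) z = 0 := by
  unfold cw cdl
  refine ⟨?_, ?_, ?_⟩
  · rw [car_lin, hx]
    ring
  · rw [car_lin, hy]
    ring
  · rw [car_lin, hz]
    ring

/-- a product of two vertices -/
private theorem car_pair (x y z v w : V3) (hx : hf x x = 1) (hy : hf y y = 1) (hz : hf z z = 1)
    (hd : cdl x y z ≠ 0) (hdr : star (cdl x y z) = cdl x y z)
    (hnd : ∀ u : V3, hf u x = 0 → hf u y = 0 → hf u z = 0 → u = 0)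
    (hvy : hf v y = 0) (hvz : hf v z = 0) (hwz : hf w z = 0) (hwx : hf w x = 0) :
    hf v w = hf v x * star (hf w y) * star (hf y z * hf z x - hf y x) / cdl x y z := by
  obtain ⟨h1, h2, h3⟩ := cw_dot y z x hy hz hx
  rw [cdl_cyc] at h1
  have hw : w = (hf w y / cdl x y z) • cw y z x := by
    have h4 : w - (hf w y / cdl x y z) • cw y z x = 0 := by
      apply hnd
      · rw [car_sub, hwx, h3, mul_zero, sub_zero]
      · rw [car_sub, h1, div_mul_cancel₀ _ hd, sub_self]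
      · rw [car_sub, hwz, h2, mul_zero, sub_zero]
    exact sub_eq_zero.1 h4
  have h5 : hf v (cw y z x) = star (hf y z * hf z x - hf y x) * hf v x := by
    unfold cw
    rw [car_lin', hvy, hvz]
    ring
  calc hf v w = hf v ((hf w y / cdl x y z) • cw y z x) := by rw [← hw]
    _ = _ := by
      rw [car_smul, h5, star_div₀, hdr]
      ring

/-! ### arguments -/

private theorem car_exp (x : ℝ) : (1 : ℂ) - x * Complex.I =
    (Real.sqrt (1 + x ^ 2) : ℝ) * Complex.exp ((-Real.arctan x : ℝ) * Complex.I) := by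
  have hs : 0 < Real.sqrt (1 + x ^ 2) := Real.sqrt_pos.2 (by positivity)
  rw [Complex.exp_mul_I, ← Complex.ofReal_cos, ← Complex.ofReal_sin, Real.cos_neg, Real.sin_neg,
    Real.cos_arctan, Real.sin_arctan]
  have hs' : ((Real.sqrt (1 + x ^ 2) : ℝ) : ℂ) ≠ 0 := by
    exact_mod_cast hs.ne'
  push_cast
  field_simp
  ring

private theorem car_arctan_le {x : ℝ} (hx : |x| ≤ 1) : |Real.arctan x| ≤ Real.pi / 4 := by
  rw [abs_le] at hx ⊢
  have h1 := Real.arctan_le_arctan_iff.2 hx.2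
  have h2 := Real.arctan_le_arctan_iff.2 hx.1
  rw [Real.arctan_one] at h1
  rw [Real.arctan_neg, Real.arctan_one] at h2
  exact ⟨h2, h1⟩

private theorem car_arctan_lt {x : ℝ} (hx : |x| < 1) : |Real.arctan x| < Real.pi / 4 := by
  rw [abs_lt] at hx ⊢
  have h1 := Real.arctan_lt_arctan_iff.2 hx.2
  have h2 := Real.arctan_lt_arctan_iff.2 hx.1
  rw [Real.arctan_one] at h1
  rw [Real.arctan_neg, Real.arctan_one] at h2
  exact ⟨h2, h1⟩

private theorem car_dl {h l m τ : ℝ} (hh : 0 < h) (hl : 0 < l) (hm : 0 < m) (hτ : |τ| ≤ 1) :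
    |dl1 h l m * τ| < 1 := by
  have hp : 0 < l * m + 2 * h := by positivity
  have hlm : 0 < l * m := mul_pos hl hm
  have h1 : |dl1 h l m| < 1 := by
    unfold dl1
    rw [abs_lt]
    constructor
    · rw [lt_div_iff₀ hp]
      linarith
    · rw [div_lt_iff₀ hp]
      linarith
  rw [abs_mul]
  calc |dl1 h l m| * |τ| ≤ |dl1 h l m| * 1 := mul_le_mul_of_nonneg_left hτ (abs_nonneg _)
    _ < 1 := by rw [mul_one]; exact h1

private theorem car_tC {h l m τ : ℝ} (hh : 0 < h) (hl : 0 < l) (hm : 0 < m) (hτ : |τ| ≤ 1) :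
    |tC h l m τ| < Real.pi := by
  have h1 := car_arctan_le hτ
  have h2 := car_arctan_lt (car_dl hh hl hm hτ)
  have h3 := car_arctan_lt (car_dl hl hm hh hτ)
  have h4 := car_arctan_lt (car_dl hm hh hl hτ)
  unfold tC
  rw [abs_lt]
  rw [abs_le] at h1
  rw [abs_lt] at h2 h3 h4
  constructor <;> linarith

private theorem car_arg {h l m τ ρ : ℝ} (hh : 0 < h) (hl : 0 < l) (hm : 0 < m) (hτ : |τ| ≤ 1)
    (hρ : 0 < ρ) : Complex.arg ((ρ : ℂ) * ((1 - τ * Complex.I) *
      ((1 - (dl1 h l m * τ : ℝ) * Complex.I) * (1 - (dl1 l m h * τ : ℝ) * Complex.I) *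
        (1 - (dl1 m h l * τ : ℝ) * Complex.I)))) = -tC h l m τ := by
  rw [car_exp τ, car_exp (dl1 h l m * τ), car_exp (dl1 l m h * τ), car_exp (dl1 m h l * τ)]
  obtain ⟨s0, hs0⟩ : ∃ s, s = Real.sqrt (1 + τ ^ 2) := ⟨_, rfl⟩
  obtain ⟨s1, hs1⟩ : ∃ s, s = Real.sqrt (1 + (dl1 h l m * τ) ^ 2) := ⟨_, rfl⟩
  obtain ⟨s2, hs2⟩ : ∃ s, s = Real.sqrt (1 + (dl1 l m h * τ) ^ 2) := ⟨_, rfl⟩
  obtain ⟨s3, hs3⟩ : ∃ s, s = Real.sqrt (1 + (dl1 m h l * τ) ^ 2) := ⟨_, rfl⟩
  have p0 : 0 < s0 := by rw [hs0]; exact Real.sqrt_pos.2 (by positivity)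
  have p1 : 0 < s1 := by rw [hs1]; exact Real.sqrt_pos.2 (by positivity)
  have p2 : 0 < s2 := by rw [hs2]; exact Real.sqrt_pos.2 (by positivity)
  have p3 : 0 < s3 := by rw [hs3]; exact Real.sqrt_pos.2 (by positivity)
  rw [← hs0, ← hs1, ← hs2, ← hs3]
  have hbd := abs_lt.1 (car_tC hh hl hm hτ)
  have e : (ρ : ℂ) * ((s0 : ℂ) * Complex.exp ((-Real.arctan τ : ℝ) * Complex.I) *
      ((s1 : ℂ) * Complex.exp ((-Real.arctan (dl1 h l m * τ) : ℝ) * Complex.I) *
        ((s2 : ℂ) * Complex.exp ((-Real.arctan (dl1 l m h * τ) : ℝ) * Complex.I)) *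
        ((s3 : ℂ) * Complex.exp ((-Real.arctan (dl1 m h l * τ) : ℝ) * Complex.I)))) =
      ((ρ * (s0 * s1 * s2 * s3) : ℝ) : ℂ) * (Complex.cos ((-tC h l m τ : ℝ) : ℂ) +
        Complex.sin ((-tC h l m τ : ℝ) : ℂ) * Complex.I) := by
    have e1 : Complex.cos ((-tC h l m τ : ℝ) : ℂ) + Complex.sin ((-tC h l m τ : ℝ) : ℂ) * Complex.I =
        Complex.exp ((-Real.arctan τ : ℝ) * Complex.I) *
        (Complex.exp ((-Real.arctan (dl1 h l m * τ) : ℝ) * Complex.I) *
        (Complex.exp ((-Real.arctan (dl1 l m h * τ) : ℝ) * Complex.I) *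
        Complex.exp ((-Real.arctan (dl1 m h l * τ) : ℝ) * Complex.I))) := by
      rw [← Complex.exp_mul_I, ← Complex.exp_add, ← Complex.exp_add, ← Complex.exp_add]
      congr 1
      unfold tC
      push_cast
      ring
    rw [e1]
    push_cast
    ring
  rw [e]
  exact Complex.arg_mul_cos_add_sin_mul_I (by positivity) ⟨by linarith [hbd.2], by linarith [hbd.1]⟩

/-! ### the algebraic identity -/

private theorem car_alg (A B C : ℂ) (h l m τ : ℝ) (hh : 0 < h) (hl : 0 < l) (hm : 0 < m)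
    (hA : A * star A = (h : ℂ) ^ 2) (hB : B * star B = (l : ℂ) ^ 2) (hC : C * star C = (m : ℂ) ^ 2)
    (hT : A * B * C = ((h * l * m : ℝ) : ℂ) * ((1 + τ * Complex.I) / (1 - τ * Complex.I))) :
    (star B * star C + 2 * A) * (star C * star A + 2 * B) * (star A * star B + 2 * C) =
      (((l * m + 2 * h) * (m * h + 2 * l) * (h * l + 2 * m) / (1 + τ ^ 2) ^ 2 : ℝ) : ℂ) *
      ((1 - τ * Complex.I) *
      ((1 - (dl1 h l m * τ : ℝ) * Complex.I) * (1 - (dl1 l m h * τ : ℝ) * Complex.I) *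
        (1 - (dl1 m h l * τ : ℝ) * Complex.I))) := by
  have n1 : (1 + τ * Complex.I : ℂ) ≠ 0 := by
    intro h0
    have := congrArg Complex.re h0
    simp at this
  have n2 : (1 - τ * Complex.I : ℂ) ≠ 0 := by
    intro h0
    have := congrArg Complex.re h0
    simp at this
  have hTs : star A * star B * star C =
      ((h * l * m : ℝ) : ℂ) * ((1 - τ * Complex.I) / (1 + τ * Complex.I)) := by
    have h1 := congrArg star hT
    rw [star_mul', star_mul', star_mul', star_div₀] at h1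
    rw [h1]
    have e1 : star ((h * l * m : ℝ) : ℂ) = ((h * l * m : ℝ) : ℂ) := Complex.conj_ofReal _
    have e2 : star (1 + τ * Complex.I : ℂ) = 1 - τ * Complex.I := by
      rw [star_add, star_one, star_mul']
      have : star Complex.I = -Complex.I := Complex.conj_I
      rw [this]
      have e3 : star (τ : ℂ) = (τ : ℂ) := Complex.conj_ofReal _
      rw [e3]
      ring
    have e4 : star (1 - τ * Complex.I : ℂ) = 1 + τ * Complex.I := by
      rw [← e2, star_star]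
    rw [e1, e2, e4]
  obtain ⟨T, hTd⟩ : ∃ T : ℂ, T = star A * star B * star C := ⟨_, rfl⟩
  have hK : ((h * l * m : ℝ) : ℂ) ≠ 0 := by
    exact_mod_cast (mul_pos (mul_pos hh hl) hm).ne'
  have hT0 : T ≠ 0 := by
    rw [hTd, hTs]
    exact mul_ne_zero hK (div_ne_zero n2 n1)
  have k1 : (star B * star C + 2 * A) * star A = T + 2 * (h : ℂ) ^ 2 := by
    rw [hTd, ← hA]
    ring
  have k2 : (star C * star A + 2 * B) * star B = T + 2 * (l : ℂ) ^ 2 := by
    rw [hTd, ← hB]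
    ring
  have k3 : (star A * star B + 2 * C) * star C = T + 2 * (m : ℂ) ^ 2 := by
    rw [hTd, ← hC]
    ring
  have hI2 : Complex.I ^ 2 = -1 := Complex.I_sq
  have q : ∀ a b c : ℝ, 0 < a → 0 < b → 0 < c → a * b * c = h * l * m →
      T + 2 * (a : ℂ) ^ 2 = (a : ℂ) * ((b * c + 2 * a : ℝ) : ℂ) *
        (1 - (dl1 a b c * τ : ℝ) * Complex.I) / (1 + τ * Complex.I) := by
    intro a b c ha hb hc habc
    obtain ⟨D, hD⟩ : ∃ D : ℝ, D = dl1 a b c := ⟨_, rfl⟩
    have hkey : D * (b * c + 2 * a) = b * c - 2 * a := by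
      have : (0 : ℝ) < b * c + 2 * a := by positivity
      rw [hD]
      unfold dl1
      field_simp
    have hkey' : (D : ℂ) * ((b : ℂ) * c + 2 * a) = (b : ℂ) * c - 2 * a := by
      exact_mod_cast congrArg (fun x : ℝ => (x : ℂ)) hkey
    rw [hTd, hTs, ← habc, eq_div_iff n1, add_mul, mul_assoc, div_mul_cancel₀ _ n1, ← hD]
    push_cast
    linear_combination ((a : ℂ) * τ * Complex.I) * hkey'
  have q1 := q h l m hh hl hm rfl
  have q2 := q l m h hl hm hh (by ring)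
  have q3 := q m h l hm hh hl (by ring)
  have hmul : ((star B * star C + 2 * A) * (star C * star A + 2 * B) *
      (star A * star B + 2 * C)) * T =
      (T + 2 * (h : ℂ) ^ 2) * (T + 2 * (l : ℂ) ^ 2) * (T + 2 * (m : ℂ) ^ 2) := by
    rw [← k1, ← k2, ← k3]
    nth_rewrite 1 [hTd]
    ring
  have hfin : (T + 2 * (h : ℂ) ^ 2) * (T + 2 * (l : ℂ) ^ 2) * (T + 2 * (m : ℂ) ^ 2) =
      ((((l * m + 2 * h) * (m * h + 2 * l) * (h * l + 2 * m) / (1 + τ ^ 2) ^ 2 : ℝ) : ℂ) *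
      ((1 - τ * Complex.I) *
      ((1 - (dl1 h l m * τ : ℝ) * Complex.I) * (1 - (dl1 l m h * τ : ℝ) * Complex.I) *
        (1 - (dl1 m h l * τ : ℝ) * Complex.I)))) * T := by
    rw [q1, q2, q3, hTd, hTs]
    have hden : ((1 : ℂ) + (τ : ℂ) ^ 2) = (1 + τ * Complex.I) * (1 - τ * Complex.I) := by
      linear_combination ((τ : ℂ) ^ 2) * hI2
    obtain ⟨d1, hd1⟩ : ∃ d : ℂ, d = 1 - (dl1 h l m * τ : ℝ) * Complex.I := ⟨_, rfl⟩
    obtain ⟨d2, hd2⟩ : ∃ d : ℂ, d = 1 - (dl1 l m h * τ : ℝ) * Complex.I := ⟨_, rfl⟩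
    obtain ⟨d3, hd3⟩ : ∃ d : ℂ, d = 1 - (dl1 m h l * τ : ℝ) * Complex.I := ⟨_, rfl⟩
    rw [← hd1, ← hd2, ← hd3]
    obtain ⟨P, hP⟩ : ∃ P : ℂ, P = 1 + τ * Complex.I := ⟨_, rfl⟩
    obtain ⟨M, hM⟩ : ∃ M : ℂ, M = 1 - τ * Complex.I := ⟨_, rfl⟩
    push_cast
    rw [hden, ← hP, ← hM]
    rw [← hP] at n1
    rw [← hM] at n2
    field_simp
  exact mul_right_cancel₀ hT0 (hmul.trans hfin)

private theorem car_cos_pos {M : ℕ} (hM : 3 ≤ M) : 0 < Kp M := by
  unfold Kp
  have hM' : (3 : ℝ) ≤ M := by exact_mod_cast hM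
  have h1 : Real.pi / M ≤ Real.pi / 3 := div_le_div_of_nonneg_left Real.pi_pos.le (by norm_num) hM'
  have h2 : 0 < Real.pi / M := div_pos Real.pi_pos (by linarith)
  have := Real.cos_pos_of_mem_Ioo (x := Real.pi / M)
    ⟨by linarith [Real.pi_pos], by linarith [Real.pi_pos]⟩
  linarith

private theorem car_sq {z : ℂ} {h : ℝ} (hz : ‖z‖ = h) : z * star z = (h : ℂ) ^ 2 := by
  have h1 : z * star z = ((Complex.normSq z : ℝ) : ℂ) := Complex.mul_conj z
  rw [h1, Complex.normSq_eq_norm_sq, hz]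
  push_cast
  rfl

theorem st_CAR : ST_CAR := by
  intro p q r hp hq hr e τ t htri hτ hG hcar
  obtain ⟨v, hv0, hvo, ht⟩ := hcar
  have hu := htri.unit
  have hE : (Matrix.of e).det ≠ 0 := by
    have h1 : LinearIndependent ℂ (Matrix.of e).row := htri.indep
    have h2 := Matrix.linearIndependent_rows_iff_isUnit.1 h1
    exact ((Matrix.isUnit_iff_isUnit_det _).1 h2).ne_zero
  obtain ⟨δ, hδ, hδ'⟩ : ∃ δ : ℝ, 0 < δ ∧ cdl (e 0) (e 1) (e 2) = ((-δ : ℝ) : ℂ) := by
    refine ⟨Complex.normSq (Matrix.of e).det, Complex.normSq_pos.2 hE, ?_⟩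
    rw [car_det e hu]
    have h1 : (Matrix.of e).det * star (Matrix.of e).det =
      ((Complex.normSq (Matrix.of e).det : ℝ) : ℂ) := Complex.mul_conj _
    rw [h1]
    push_cast
    rfl
  have hd : cdl (e 0) (e 1) (e 2) ≠ 0 := by
    rw [hδ']
    exact_mod_cast (neg_lt_zero.2 hδ).ne
  have hdr : star (cdl (e 0) (e 1) (e 2)) = cdl (e 0) (e 1) (e 2) := by
    rw [hδ']
    exact Complex.conj_ofReal _
  have hnd : ∀ u : V3, hf u (e 0) = 0 → hf u (e 1) = 0 → hf u (e 2) = 0 → u = 0 := by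
    intro u h0 h1 h2
    apply car_nondeg e hE
    intro i
    fin_cases i
    · exact h0
    · exact h1
    · exact h2
  have c1 : cdl (e 1) (e 2) (e 0) = cdl (e 0) (e 1) (e 2) := cdl_cyc _ _ _
  have c2 : cdl (e 2) (e 0) (e 1) = cdl (e 0) (e 1) (e 2) := by
    rw [cdl_cyc (e 1) (e 2) (e 0), c1]
  have o01 : hf (v 0) (e 1) = 0 := hvo 0 1 (by decide)
  have o02 : hf (v 0) (e 2) = 0 := hvo 0 2 (by decide)
  have o10 : hf (v 1) (e 0) = 0 := hvo 1 0 (by decide)
  have o12 : hf (v 1) (e 2) = 0 := hvo 1 2 (by decide)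
  have o20 : hf (v 2) (e 0) = 0 := hvo 2 0 (by decide)
  have o21 : hf (v 2) (e 1) = 0 := hvo 2 1 (by decide)
  have a0 : hf (v 0) (e 0) ≠ 0 := fun h => hv0 0 (hnd _ h o01 o02)
  have a1 : hf (v 1) (e 1) ≠ 0 := fun h => hv0 1 (hnd _ o10 h o12)
  have a2 : hf (v 2) (e 2) ≠ 0 := fun h => hv0 2 (hnd _ o20 o21 h)
  have P01 := car_pair (e 0) (e 1) (e 2) (v 0) (v 1) (hu 0) (hu 1) (hu 2) hd hdr hnd o01 o02 o12 o10
  have P12 := car_pair (e 1) (e 2) (e 0) (v 1) (v 2) (hu 1) (hu 2) (hu 0) (by rw [c1]; exact hd)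
    (by rw [c1]; exact hdr) (fun u h1 h2 h0 => hnd u h0 h1 h2) o12 o10 o20 o21
  have P20 := car_pair (e 2) (e 0) (e 1) (v 2) (v 0) (hu 2) (hu 0) (hu 1) (by rw [c2]; exact hd)
    (by rw [c2]; exact hdr) (fun u h2 h0 h1 => hnd u h0 h1 h2) o20 o21 o01 o02
  rw [c1] at P12
  rw [c2] at P20
  -- labels
  obtain ⟨h, hh⟩ : ∃ h, h = kk p q r 0 1 := ⟨_, rfl⟩
  obtain ⟨l, hl⟩ : ∃ l, l = kk p q r 1 2 := ⟨_, rfl⟩
  obtain ⟨m, hm⟩ : ∃ m, m = kk p q r 2 0 := ⟨_, rfl⟩
  have hh0 : 0 < h := by rw [hh]; exact car_cos_pos hp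
  have hl0 : 0 < l := by rw [hl]; exact car_cos_pos hq
  have hm0 : 0 < m := by rw [hm]; exact car_cos_pos hr
  have nA : ‖gram e 0 1‖ = h := by rw [hG.nrm 0 1 (by decide), hh]
  have nB : ‖gram e 1 2‖ = l := by rw [hG.nrm 1 2 (by decide), hl]
  have nC : ‖gram e 2 0‖ = m := by rw [hG.nrm 2 0 (by decide), hm]
  have sA : star (gram e 0 1) = gram e 1 0 := (hG.herm 0 1).symm
  have sB : star (gram e 1 2) = gram e 2 1 := (hG.herm 1 2).symm
  have sC : star (gram e 2 0) = gram e 0 2 := (hG.herm 2 0).symm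
  have hT := hG.tri
  rw [← hh, ← hl, ← hm] at hT
  have halg := car_alg (gram e 0 1) (gram e 1 2) (gram e 2 0) h l m τ hh0 hl0 hm0 (car_sq nA)
    (car_sq nB) (car_sq nC) (by rw [hT])
  rw [sA, sB, sC] at halg
  obtain ⟨Z, hZ⟩ : ∃ Z : ℂ, Z = (1 - τ * Complex.I) *
      ((1 - (dl1 h l m * τ : ℝ) * Complex.I) * (1 - (dl1 l m h * τ : ℝ) * Complex.I) *
        (1 - (dl1 m h l * τ : ℝ) * Complex.I)) := ⟨_, rfl⟩
  obtain ⟨ω, hω⟩ : ∃ ω : ℝ,
      ω = (l * m + 2 * h) * (m * h + 2 * l) * (h * l + 2 * m) / (1 + τ ^ 2) ^ 2 := ⟨_, rfl⟩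
  have hω0 : 0 < ω := by rw [hω]; positivity
  rw [← hZ, ← hω] at halg
  have hmain : -(hf (v 0) (v 1) * hf (v 1) (v 2) * hf (v 2) (v 0)) =
      ((Complex.normSq (hf (v 0) (e 0)) * Complex.normSq (hf (v 1) (e 1)) *
        Complex.normSq (hf (v 2) (e 2)) / δ ^ 3 / 64 * ω : ℝ) : ℂ) * Z := by
    have s0 : hf (v 0) (e 0) * star (hf (v 0) (e 0)) =
      ((Complex.normSq (hf (v 0) (e 0)) : ℝ) : ℂ) := Complex.mul_conj _
    have s1 : hf (v 1) (e 1) * star (hf (v 1) (e 1)) =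
      ((Complex.normSq (hf (v 1) (e 1)) : ℝ) : ℂ) := Complex.mul_conj _
    have s2 : hf (v 2) (e 2) * star (hf (v 2) (e 2)) =
      ((Complex.normSq (hf (v 2) (e 2)) : ℝ) : ℂ) := Complex.mul_conj _
    have hδc : ((δ : ℝ) : ℂ) ≠ 0 := by exact_mod_cast hδ.ne'
    have g01 : gram e 0 1 = -2 * hf (e 0) (e 1) := rfl
    have g10 : gram e 1 0 = -2 * hf (e 1) (e 0) := rfl
    have g12 : gram e 1 2 = -2 * hf (e 1) (e 2) := rfl
    have g21 : gram e 2 1 = -2 * hf (e 2) (e 1) := rfl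
    have g20 : gram e 2 0 = -2 * hf (e 2) (e 0) := rfl
    have g02 : gram e 0 2 = -2 * hf (e 0) (e 2) := rfl
    have t1 : star (hf (e 1) (e 2) * hf (e 2) (e 0) - hf (e 1) (e 0)) =
        (gram e 2 1 * gram e 0 2 + 2 * gram e 0 1) / 4 := by
      rw [star_sub, star_mul', car_star, car_star, car_star, g21, g02, g01]
      ring
    have t2 : star (hf (e 2) (e 0) * hf (e 0) (e 1) - hf (e 2) (e 1)) =
        (gram e 0 2 * gram e 1 0 + 2 * gram e 1 2) / 4 := by
      rw [star_sub, star_mul', car_star, car_star, car_star, g02, g10, g12]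
      ring
    have t3 : star (hf (e 0) (e 1) * hf (e 1) (e 2) - hf (e 0) (e 2)) =
        (gram e 1 0 * gram e 2 1 + 2 * gram e 2 0) / 4 := by
      rw [star_sub, star_mul', car_star, car_star, car_star, g10, g21, g20]
      ring
    rw [P01, P12, P20, t1, t2, t3, hδ']
    push_cast
    rw [← s0, ← s1, ← s2]
    have e1 : ∀ x0 y0 x1 y1 x2 y2 g1 g2 g3 D W : ℂ, D ≠ 0 → g1 * g2 * g3 = W →
        -(x0 * y1 * (g1 / 4) / -D * (x1 * y2 * (g2 / 4) / -D) * (x2 * y0 * (g3 / 4) / -D)) =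
        x0 * y0 * (x1 * y1) * (x2 * y2) / D ^ 3 / 64 * W := by
      intro x0 y0 x1 y1 x2 y2 g1 g2 g3 D W hD hW
      rw [← hW]
      field_simp
      ring
    rw [e1 _ _ _ _ _ _ _ _ _ _ _ hδc halg]
    ring
  have hρ : 0 < Complex.normSq (hf (v 0) (e 0)) * Complex.normSq (hf (v 1) (e 1)) *
        Complex.normSq (hf (v 2) (e 2)) / δ ^ 3 / 64 * ω := by
    have b0 := Complex.normSq_pos.2 a0
    have b1 := Complex.normSq_pos.2 a1
    have b2 := Complex.normSq_pos.2 a2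
    positivity
  rw [← hh, ← hl, ← hm, ht, hmain, hZ, car_arg hh0 hl0 hm0 hτ hρ, abs_neg]

end Pool.Agent.Helper6.MONO
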